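import Mathlib
import Pool.Agent.V1181.RadExp
import Pool.Agent.V1181.RadChain

/-!
# Volume of radial metrics of constant negative Q-curvature on four-space

For the radial solutions `u_a` of `Δ² u = -6 exp (4 u)` on `ℝ⁴` with `u_a 0 = 0` and
`u_a'' 0 = a` the volume is finite and tends to infinity as `a` tends to infinity.
-/

set_option autoImplicit false

namespace Pool.Agent.Results.MP_6d9676_an.VolumeToInfinity

open Real Set Filter MeasureTheory Topology InnerProductSpace Laplacian Pool.Agent.V1181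

/-- `U` is the (smooth) radial solution of `Δ² U = -6 exp (4 U)` on `ℝ⁴` with `U 0 = 0` and second
radial derivative `a` at the origin (the odd radial derivatives vanish at the origin because `U` is
smooth and radial). -/
structure IsRadialSolution (a : ℝ) (U : EuclideanSpace ℝ (Fin 4) → ℝ) : Prop where
  smooth : ContDiff ℝ (⊤ : ℕ∞) U
  radial : ∀ x y, ‖x‖ = ‖y‖ → U x = U y
  eq : ∀ x, Δ (Δ U) x = -6 * exp (4 * U x)
  zero : U 0 = 0
  second : ∀ e : EuclideanSpace ℝ (Fin 4), ‖e‖ = 1 →
    iteratedDeriv 2 (fun t : ℝ => U (t • e)) 0 = a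

/-- The second derivative along a line through the origin. -/
theorem second_line {U : EuclideanSpace ℝ (Fin 4) → ℝ} (hU : ContDiff ℝ (⊤ : ℕ∞) U)
    (e : EuclideanSpace ℝ (Fin 4)) :
    iteratedDeriv 2 (fun t : ℝ => U (t • e)) 0 = iteratedFDeriv ℝ 2 U 0 ![e, e] := by
  have hU2 : ContDiff ℝ 2 U := by exact_mod_cast contDiff_infty.1 hU 2
  have hline : ∀ t : ℝ, HasDerivAt (fun t : ℝ => t • e) e t := by
    intro t
    simpa using (hasDerivAt_id t).smul_const e
  have h1 : deriv (fun t : ℝ => U (t • e)) = fun t => fderiv ℝ U (t • e) e := by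
    funext t
    have h := ((hU2.differentiable (by norm_num) (t • e)).hasFDerivAt).comp_hasDerivAt t (hline t)
    exact h.deriv
  rw [iteratedDeriv_succ, iteratedDeriv_one, h1, iteratedFDeriv_two_apply]
  have hd2 : DifferentiableAt ℝ (fderiv ℝ U) ((0 : ℝ) • e) :=
    (hU2.fderiv_right (m := 1) (by norm_num)).differentiable (by norm_num) _
  have h2 : HasFDerivAt (fun y => fderiv ℝ U y e)
      ((ContinuousLinearMap.apply ℝ ℝ e).comp (fderiv ℝ (fderiv ℝ U) ((0 : ℝ) • e)))
      ((0 : ℝ) • e) :=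
    (ContinuousLinearMap.apply ℝ ℝ e).hasFDerivAt.comp _ hd2.hasFDerivAt
  have h3 := (h2.comp_hasDerivAt (0 : ℝ) (hline 0)).deriv
  simp only [Function.comp_def] at h3
  rw [h3]
  simp

theorem lap_zero {U : EuclideanSpace ℝ (Fin 4) → ℝ} (hU : ContDiff ℝ (⊤ : ℕ∞) U) {a : ℝ}
    (h : ∀ e : EuclideanSpace ℝ (Fin 4), ‖e‖ = 1 →
      iteratedDeriv 2 (fun t : ℝ => U (t • e)) 0 = a) : Δ U 0 = 4 * a := by
  rw [laplacian_eq_iteratedFDeriv_orthonormalBasis U (EuclideanSpace.basisFun (Fin 4) ℝ)]
  have : ∀ i, iteratedFDeriv ℝ 2 U 0 ![(EuclideanSpace.basisFun (Fin 4) ℝ) i,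
      (EuclideanSpace.basisFun (Fin 4) ℝ) i] = a := by
    intro i
    rw [← second_line hU, h _ (OrthonormalBasis.norm_eq_one _ i)]
  show ∑ i, iteratedFDeriv ℝ 2 U 0 ![(EuclideanSpace.basisFun (Fin 4) ℝ) i,
      (EuclideanSpace.basisFun (Fin 4) ℝ) i] = 4 * a
  rw [Finset.sum_congr rfl fun i _ => this i]
  simp

theorem exists_sol (a : ℝ) : ∃ U, IsRadialSolution a U := by
  have hE : Module.finrank ℝ (EuclideanSpace ℝ (Fin 4)) = 2 * (1 + 1) := by simp
  obtain ⟨F, hF, -, h2, h3⟩ := exists_neg (m := 1) hE (fun i => if i = 0 then 0 else 4 * a)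
    (c := 6) (β := 4) (by norm_num) (by norm_num)
  have hUs : ContDiff ℝ (⊤ : ℕ∞) (fun x : EuclideanSpace ℝ (Fin 4) => F (‖x‖ ^ 2)) :=
    hF.comp (contDiff_norm_sq ℝ)
  have hrad : ∀ x y : EuclideanSpace ℝ (Fin 4), ‖x‖ = ‖y‖ → F (‖x‖ ^ 2) = F (‖y‖ ^ 2) := by
    intro x y h
    rw [h]
  refine ⟨fun x => F (‖x‖ ^ 2), hUs, hrad, fun x => ?_, ?_, ?_⟩
  · have := h2 x
    simpa [lapIter] using this
  · have := h3 0 (by norm_num)
    simpa [lapIter] using this
  · intro e he
    have hsame : ∀ e' : EuclideanSpace ℝ (Fin 4), ‖e'‖ = 1 →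
        iteratedDeriv 2 (fun t : ℝ => F (‖t • e'‖ ^ 2)) 0
          = iteratedDeriv 2 (fun t : ℝ => F (‖t • e‖ ^ 2)) 0 := by
      intro e' he'
      congr 1
      funext t
      rw [norm_smul, norm_smul, he, he']
    have h4 := lap_zero hUs hsame
    have h5 := h3 1 (le_refl _)
    have h6 : lapIter 1 (fun x : EuclideanSpace ℝ (Fin 4) => F (‖x‖ ^ 2)) 0
        = Δ (fun x : EuclideanSpace ℝ (Fin 4) => F (‖x‖ ^ 2)) 0 := rfl
    rw [h6, h4] at h5
    simp only [one_ne_zero, if_false] at h5
    linarith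

section analysis

variable {a : ℝ} {u w : ℝ → ℝ} (hc1 : Chain 3 u w)
  (hc2 : Chain 3 w (fun t => -6 * exp (4 * u t))) (hu0 : u 0 = 0) (hw0 : w 0 = 4 * a)

include hc1 hc2 hu0 hw0

/-- The profile tends to minus infinity at a quadratic rate. -/
theorem quad_decay : ∃ c' > 0, ∃ R' > 0, ∀ r, R' ≤ r → u r ≤ - c' * r ^ 2 := by
  have hneg : ∃ r1, 0 ≤ r1 ∧ w r1 < 0 := by
    by_contra hcon
    push Not at hcon
    have hu : ∀ r, 0 ≤ r → 0 ≤ u r := fun r hr => by
      have := hc1.mono' (fun t ht => hcon t ht) (le_refl 0) hr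
      rwa [hu0] at this
    have hw : ∀ r, 0 ≤ r → w r - w 0 ≤ -6 * r ^ 2 / (2 * ((3 : ℕ) + 1)) - 0 := by
      intro r hr
      have := hc2.compare (chain_const 3 (-6)) (R := r) (fun t h0 _ => by
        have h1 : 1 ≤ exp (4 * u t) := Real.one_le_exp (by linarith [hu t h0])
        linarith) hr (le_refl r)
      simpa using this
    obtain ⟨r, hr⟩ := exists_nat_gt (|4 * a| + 1)
    have hr0 : (0 : ℝ) ≤ r := Nat.cast_nonneg r
    have h1 := hw (2 * r) (by positivity)
    have h2 := hcon (2 * r) (by positivity)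
    rw [hw0] at h1
    have h3 := le_abs_self (4 * a)
    push_cast at h1
    nlinarith [abs_nonneg (4 * a)]
  obtain ⟨r1, hr1, hw1⟩ := hneg
  have hanti : ∀ r, r1 ≤ r → w r ≤ w r1 := by
    intro r hr
    have := hc2.neg.mono' (fun t _ => by
      have := exp_pos (4 * u t)
      linarith) hr1 hr
    linarith
  exact hc1.down (c := - w r1) (R := r1) (by linarith) (fun r hr => by
    have := hanti r hr
    linarith)

/-- If the truncated volume stays bounded then `a` is bounded. -/
theorem vol_large {K : ℝ} (hK : 0 < K) (ha1 : 1 ≤ a) (ha2 : 9 * K * exp (6 * K) ≤ a) :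
    ∃ r, 0 < r ∧ K < ∫ t in (0 : ℝ)..r, t ^ 3 * exp (4 * u t) := by
  by_contra hcon
  push Not at hcon
  have hcu := hc1.cv
  have hw_le : ∀ r, 0 ≤ r → w r ≤ 4 * a := by
    intro r hr
    have := hc2.neg.mono' (fun t _ => by
      have := exp_pos (4 * u t)
      linarith) (le_refl 0) hr
    linarith
  have hu_le : ∀ r, 0 ≤ r → u r ≤ a * r ^ 2 / 2 := by
    intro r hr
    have := hc1.compare (chain_const 3 (4 * a)) (R := r) (fun t h0 _ => hw_le t h0) hr (le_refl r)
    rw [hu0] at this
    push_cast at this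
    nlinarith
  set r0 := √(3 * K / a) with hr0
  have ha : 0 < a := by linarith
  have hr0pos : 0 < r0 := Real.sqrt_pos.2 (by positivity)
  have hr0sq : r0 ^ 2 = 3 * K / a := Real.sq_sqrt (by positivity)
  have hstep1 : 3 * a ≤ w r0 := by
    have := (chain_const 3 (-6 * exp (6 * K))).compare hc2 (R := r0) (fun t h0 h1 => by
      have h2 := hu_le t h0
      have h3 : t ^ 2 ≤ r0 ^ 2 := by gcongr
      rw [hr0sq] at h3
      have h4 : 4 * u t ≤ 6 * K := by
        have : a * t ^ 2 ≤ 3 * K := by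
          calc a * t ^ 2 ≤ a * (3 * K / a) := by gcongr
            _ = 3 * K := by field_simp
        linarith
      have h5 := Real.exp_le_exp.2 h4
      linarith) hr0pos.le (le_refl r0)
    rw [hr0sq, hw0] at this
    push_cast at this
    have h6 : 9 * K * exp (6 * K) / (4 * a) ≤ a := by
      rw [div_le_iff₀ (by positivity)]
      nlinarith [exp_pos (6 * K)]
    have h7 : -6 * exp (6 * K) * (3 * K / a) / (2 * (3 + 1)) = - (9 * K * exp (6 * K) / (4 * a)) := by
      field_simp
      ring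
    rw [h7] at this
    linarith
  have hstep2 : ∀ r, r0 ≤ r → 2 * a ≤ w r := by
    intro r hr
    have hm : MonotoneOn (fun r => w r - 3 * K / r ^ 2) (Ici r0) := by
      have hd : ∀ x, r0 < x → HasDerivAt (fun r => w r - 3 * K / r ^ 2)
          ((∫ t in (0 : ℝ)..x, t ^ 3 * (-6 * exp (4 * u t))) / x ^ 3
            - (-(3 * K * (2 * x)) / (x ^ 2) ^ 2)) x := by
        intro x hx
        have hx0 : 0 < x := hr0pos.trans hx
        have h1 := (hasDerivAt_const x (3 * K)).div (hasDerivAt_pow 2 x) (by positivity)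
        refine ((hc2.d x hx0).sub h1).congr_deriv ?_
        simp
      refine monotoneOn_of_deriv_nonneg (convex_Ici r0) ?_ ?_ ?_
      · refine hc2.cv.continuousOn.sub ?_
        refine ContinuousOn.div continuousOn_const (by fun_prop) ?_
        intro x hx
        have : 0 < x := lt_of_lt_of_le hr0pos hx
        positivity
      · intro x hx
        rw [interior_Ici] at hx
        exact (hd x hx).differentiableAt.differentiableWithinAt
      · intro x hx
        rw [interior_Ici] at hx
        rw [(hd x hx).deriv]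
        have hx0 : 0 < x := hr0pos.trans hx
        have h1 := hcon x hx0
        have h2 : ∫ t in (0 : ℝ)..x, t ^ 3 * (-6 * exp (4 * u t))
            = -6 * ∫ t in (0 : ℝ)..x, t ^ 3 * exp (4 * u t) := by
          rw [← intervalIntegral.integral_const_mul]
          congr 1
          funext t
          ring
        rw [h2]
        have h3 : -6 * (∫ t in (0 : ℝ)..x, t ^ 3 * exp (4 * u t)) / x ^ 3
            - (-(3 * K * (2 * x)) / (x ^ 2) ^ 2)
            = 6 * (K - ∫ t in (0 : ℝ)..x, t ^ 3 * exp (4 * u t)) / x ^ 3 := by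
          field_simp
          ring
        rw [h3]
        exact div_nonneg (by linarith) (by positivity)
    have h1 := hm (mem_Ici.2 (le_refl r0)) (mem_Ici.2 hr) hr
    simp only at h1
    have h2 : 3 * K / r0 ^ 2 = a := by
      rw [hr0sq]
      field_simp
    have h3 : 0 ≤ 3 * K / r ^ 2 := by positivity
    rw [h2] at h1
    linarith
  have hw_ge : ∀ r, 0 ≤ r → 2 * a ≤ w r := by
    intro r hr
    rcases le_total r0 r with h | h
    · exact hstep2 r h
    · have := hc2.neg.mono' (fun t _ => by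
        have := exp_pos (4 * u t)
        linarith) hr h
      linarith
  have hu_ge : ∀ r, 0 ≤ r → 0 ≤ u r := by
    intro r hr
    have := hc1.mono' (fun t ht => (by positivity : (0 : ℝ) ≤ 2 * a).trans (hw_ge t ht))
      (le_refl 0) hr
    rwa [hu0] at this
  obtain ⟨n, hn⟩ := exists_nat_gt (4 * K + 1)
  have hn0 : (1 : ℝ) < n := by linarith
  have h1 := hcon n (by linarith)
  have h2 : ∫ t in (0 : ℝ)..n, t ^ 3 * (1 : ℝ) ≤ ∫ t in (0 : ℝ)..n, t ^ 3 * exp (4 * u t) := by
    refine intervalIntegral.integral_mono_on (by linarith)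
      (Continuous.intervalIntegrable (by fun_prop) _ _)
      (Continuous.intervalIntegrable (by fun_prop) _ _) fun t ht => ?_
    have h3 : 1 ≤ exp (4 * u t) := Real.one_le_exp (by linarith [hu_ge t ht.1])
    have h4 : 0 ≤ t ^ 3 := pow_nonneg ht.1 3
    gcongr
  have h5 : ∫ t in (0 : ℝ)..n, t ^ 3 * (1 : ℝ) = (n : ℝ) ^ 4 / 4 := by
    simp only [mul_one]
    rw [integral_pow]
    norm_num
  rw [h5] at h2
  have h6 : (n : ℝ) ≤ (n : ℝ) ^ 4 := le_self_pow₀ hn0.le (by norm_num)
  linarith

end analysis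

/-- For every real `a` the radial solution exists, its volume is finite, and the volume tends to
infinity as `a` tends to infinity. -/
theorem result : (∀ a : ℝ, ∃ U, IsRadialSolution a U) ∧
    (∀ (a : ℝ) (U), IsRadialSolution a U → Integrable fun x => exp (4 * U x)) ∧
    (∀ C : ℝ, ∃ A : ℝ, ∀ a ≥ A, ∀ U, IsRadialSolution a U → C < ∫ x, exp (4 * U x)) := by
  set e : EuclideanSpace ℝ (Fin 4) := EuclideanSpace.single 0 1 with he
  have hen : ‖e‖ = 1 := by simp [he]
  have hfr : Module.finrank ℝ (EuclideanSpace ℝ (Fin 4)) = 3 + 1 := by simp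
  have chains : ∀ (a : ℝ) (U), IsRadialSolution a U →
      Chain 3 (fun t : ℝ => U (t • e)) (fun t : ℝ => Δ U (t • e)) ∧
      Chain 3 (fun t : ℝ => Δ U (t • e)) (fun t : ℝ => -6 * exp (4 * U (t • e))) ∧
      U ((0 : ℝ) • e) = 0 ∧ Δ U ((0 : ℝ) • e) = 4 * a := by
    intro a U h
    refine ⟨chain_lapIter h.smooth h.radial hen hfr (by norm_num) 0, ?_, ?_, ?_⟩
    · have h1 := chain_lapIter h.smooth h.radial hen hfr (by norm_num) 1
      have h2 : (fun t : ℝ => lapIter (1 + 1) U (t • e))
          = fun t : ℝ => -6 * exp (4 * U (t • e)) := by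
        funext t
        exact h.eq _
      rw [h2] at h1
      exact h1
    · rw [zero_smul]
      exact h.zero
    · rw [zero_smul]
      exact lap_zero h.smooth h.second
  have hrad : ∀ (a : ℝ) (U), IsRadialSolution a U → IsRadial fun x => exp (4 * U x) := by
    intro a U h x y hxy
    simp only [h.radial x y hxy]
  have integ : ∀ (a : ℝ) (U), IsRadialSolution a U →
      IntegrableOn (fun t : ℝ => t ^ 3 * exp (4 * U (t • e))) (Ioi 0) := by
    intro a U h
    obtain ⟨h1, h2, h3, h4⟩ := chains a U h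
    obtain ⟨c', hc', R', -, hR'⟩ := quad_decay h1 h2 h3 h4
    exact integrable_of_quadratic h1.cv (by norm_num) hc' hR'
  refine ⟨exists_sol, fun a U h => ?_, fun C => ?_⟩
  · exact (radial_integral (hrad a U h) hen hfr).1.2 (integ a U h)
  · set ω : ℝ := ((3 + 1 : ℕ) * (volume : Measure (EuclideanSpace ℝ (Fin 4))).real
      (Metric.ball 0 1)) with hω
    have hωpos : 0 < ω := by
      have h1 : 0 < (volume : Measure (EuclideanSpace ℝ (Fin 4))).real (Metric.ball 0 1) := by
        rw [measureReal_def, ENNReal.toReal_pos_iff]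
        exact ⟨Metric.measure_ball_pos _ _ one_pos, measure_ball_lt_top⟩
      positivity
    set K := (|C| + 1) / ω with hK
    have hKpos : 0 < K := by positivity
    refine ⟨max 1 (9 * K * exp (6 * K)), fun a ha U h => ?_⟩
    obtain ⟨h1, h2, h3, h4⟩ := chains a U h
    obtain ⟨r, hr, hlt⟩ := vol_large h1 h2 h3 h4 hKpos ((le_max_left _ _).trans ha)
      ((le_max_right _ _).trans ha)
    have h5 : ∫ t in (0 : ℝ)..r, t ^ 3 * exp (4 * U (t • e))
        ≤ ∫ t in Ioi (0 : ℝ), t ^ 3 * exp (4 * U (t • e)) := by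
      rw [intervalIntegral.integral_of_le hr.le]
      refine setIntegral_mono_set (integ a U h) ?_ Ioc_subset_Ioi_self.eventuallyLE
      refine (ae_restrict_mem measurableSet_Ioi).mono fun t ht => ?_
      have : (0 : ℝ) < t := ht
      positivity
    rw [(radial_integral (hrad a U h) hen hfr).2]
    have h6 : K * ω = |C| + 1 := by
      rw [hK]
      field_simp
    have h7 := le_abs_self C
    calc C < |C| + 1 := by linarith
      _ = ω * K := by rw [← h6]; ring
      _ < ω * ∫ t in Ioi (0 : ℝ), t ^ 3 * exp (4 * U (t • e)) := by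
        have := hlt.trans_le h5
        gcongr

end Pool.Agent.Results.MP_6d9676_an.VolumeToInfinity
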